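import Pool.Agent.Lib.MP_211349_ag.Curve

/-!
# Algebra of the rings `R[x, y] / (y² - f(x))`
-/

open CategoryTheory Limits AlgebraicGeometry Polynomial

universe u

noncomputable section

namespace Pool.Agent.Lib.MP_211349_ag

section general

variable {R : Type u} [CommRing R]

-- BEGIN SA1
/-- `R[x, y] / (y² - f(x))` is finitely presented over `R`.
(`AdjoinRoot.finitePresentation` over `R[X]`, then `Algebra.FinitePresentation.trans`.) -/
theorem finitePresentation_DC (f : R[X]) : Algebra.FinitePresentation R (DC f) := inferInstance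
-- END SA1

-- BEGIN SA2
/-- Jacobian criterion: if `2` is a unit and `f` is separable (`a f + b f' = 1`), then
`R[x, y] / (y² - f(x))` is formally smooth over `R`. By hand: for a square-zero ideal `I` of `B` and
`g : DC f →ₐ B ⧸ I` choose lifts `X, Y` of `g x`, `g y`; `e := Y² - f(X) ∈ I`; correct to
`X + u`, `Y + v` with `u := e * b(X)`, `v := - e * a(X) * Y / 2`
(then `(Y+v)² - f(X+u) = e + 2 Y v - f'(X) u = e (1 - a(X) Y² - b(X) f'(X)) = - e² a(X) = 0`).
Use e.g. `Algebra.FormallySmooth.of_comp_surjective` and `Polynomial.aeval_add_of_sq_eq_zero`. -/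
theorem formallySmooth_DC (f : R[X]) (h2 : IsUnit (2 : R)) (hf : f.Separable) :
    Algebra.FormallySmooth R (DC f) := by
  refine .of_comp_surjective fun B _ _ I hI g ↦ ?_
  obtain ⟨a, b, hab⟩ := hf
  obtain ⟨h, hh⟩ := h2.exists_right_inv
  obtain ⟨x', hx'⟩ := Ideal.Quotient.mk_surjective (g (DC.x f))
  obtain ⟨y', hy'⟩ := Ideal.Quotient.mk_surjective (g (DC.y f))
  have hgof : ∀ p : R[X], g (AdjoinRoot.of _ p) = Ideal.Quotient.mk I (aeval x' p) := by
    intro p
    have h1 : (g : DC f →+* B ⧸ I).comp (AdjoinRoot.of (X ^ 2 - C f : R[X][X])) =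
        (Ideal.Quotient.mk I).comp ((aeval x' : R[X] →ₐ[R] B) : R[X] →+* B) := by
      refine Polynomial.ringHom_ext (fun r => ?_) ?_
      · simp only [RingHom.comp_apply, RingHom.coe_coe, aeval_C]
        have : AdjoinRoot.of (X ^ 2 - C f : R[X][X]) (C r) = algebraMap R (DC f) r := rfl
        rw [this, AlgHom.commutes]
        rfl
      · simp only [RingHom.comp_apply, RingHom.coe_coe, aeval_X]
        exact hx'.symm
    exact RingHom.congr_fun h1 p
  set e : B := y' ^ 2 - aeval x' f with he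
  have heI : e ∈ I := by
    rw [← Ideal.Quotient.eq_zero_iff_mem, he, map_sub, map_pow, hy', ← hgof, ← map_pow, DC.y_sq,
      sub_self]
  have hmul : ∀ u ∈ I, ∀ v ∈ I, u * v = 0 := by
    intro u hu v hv
    have : u * v ∈ I ^ 2 := by
      rw [pow_two]
      exact Ideal.mul_mem_mul hu hv
    rw [hI] at this
    simpa using this
  have hee : e * e = 0 := hmul e heI e heI
  set u : B := e * aeval x' b with hu
  set v : B := -(e * aeval x' a * y' * algebraMap R B h) with hv
  have huI : u ∈ I := Ideal.mul_mem_right _ _ heI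
  have hvI : v ∈ I := by
    rw [hv]
    exact I.neg_mem (Ideal.mul_mem_right _ _ (Ideal.mul_mem_right _ _ (Ideal.mul_mem_right _ _ heI)))
  have hab' : aeval x' a * aeval x' f + aeval x' b * aeval x' (derivative f) = 1 := by
    rw [← map_mul, ← map_mul, ← map_add, hab, map_one]
  have h2h : (2 : B) * algebraMap R B h = 1 := by
    have := congrArg (algebraMap R B) hh
    rw [map_mul, map_one, map_ofNat] at this
    exact this
  have hroot : (y' + v) ^ 2 = aeval (x' + u) f := by
    rw [aeval_add_of_sq_eq_zero f x' u (by rw [pow_two]; exact hmul u huI u huI)]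
    have hvv : v * v = 0 := hmul v hvI v hvI
    have h3 : 2 * y' * v = -(e * aeval x' a * y' ^ 2) := by
      rw [hv]
      linear_combination (-(e * aeval x' a * y' ^ 2)) * h2h
    have h4 : y' ^ 2 = e + aeval x' f := by rw [he]; ring
    have h5 : (y' + v) ^ 2 = y' ^ 2 + 2 * y' * v + v * v := by ring
    rw [h5, hvv, h3, h4, hu]
    linear_combination (-(aeval x' a)) * hee - e * hab'
  let F : DC f →+* B := AdjoinRoot.lift ((aeval (x' + u) : R[X] →ₐ[R] B) : R[X] →+* B) (y' + v) (by
    simp only [eval₂_sub, eval₂_pow, eval₂_X, eval₂_C, RingHom.coe_coe]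
    rw [hroot, sub_self])
  have hFof : ∀ p : R[X], F (AdjoinRoot.of _ p) = aeval (x' + u) p := fun p =>
    AdjoinRoot.lift_of _
  have hFroot : F (AdjoinRoot.root _) = y' + v := AdjoinRoot.lift_root _
  let F' : DC f →ₐ[R] B := { F with
    commutes' := by
      intro r
      change F (AdjoinRoot.of _ (C r)) = _
      rw [hFof, aeval_C] }
  refine ⟨F', ?_⟩
  have hcomp : ((Ideal.Quotient.mkₐ R I).comp F' : DC f →+* B ⧸ I) = (g : DC f →+* B ⧸ I) := by
    refine AdjoinRoot.ringHom_ext ?_ ?_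
    · refine Polynomial.ringHom_ext (fun r => ?_) ?_
      · change Ideal.Quotient.mk I (F (AdjoinRoot.of _ (C r))) = g (AdjoinRoot.of _ (C r))
        rw [hFof, hgof, aeval_C, aeval_C]
      · change Ideal.Quotient.mk I (F (AdjoinRoot.of _ X)) = g (AdjoinRoot.of _ X)
        rw [hFof, hgof, aeval_X, aeval_X, map_add, Ideal.Quotient.eq_zero_iff_mem.mpr huI,
          add_zero]
    · change Ideal.Quotient.mk I (F (AdjoinRoot.root _)) = g (DC.y f)
      rw [hFroot, map_add, hy', Ideal.Quotient.eq_zero_iff_mem.mpr hvI, add_zero]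
  exact AlgHom.ext fun z => RingHom.congr_fun hcomp z
-- END SA2

-- BEGIN SA3
/-- `x (x² - 1) (1 - c x²)` is separable: pairwise coprime factors
(`(1 - c) - c (x² - 1) = 1 - c x²`), each of them separable (`Separable.mul`). -/
theorem separable_f0 (c : R) (h2 : IsUnit (2 : R)) (hc1 : IsUnit (1 - c)) :
    (f0 c).Separable := by
  obtain ⟨t, ht⟩ := h2.exists_right_inv
  obtain ⟨d, hd⟩ := hc1.exists_right_inv
  have h2C : (C 2 : R[X]) = 2 := by
    rw [← one_add_one_eq_two, C_add, C_1, one_add_one_eq_two]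
  have ht' : (2 : R[X]) * C t = 1 := by
    have h := congrArg (C : R → R[X]) ht
    rwa [C_mul, C_1, h2C] at h
  have hd' : (1 - C c : R[X]) * C d = 1 := by
    have h := congrArg (C : R → R[X]) hd
    rwa [C_mul, C_1, C_sub, C_1] at h
  have s1 : (X : R[X]).Separable := by
    rw [separable_def, derivative_X]
    exact isCoprime_one_right
  have s2 : (X ^ 2 - 1 : R[X]).Separable := by
    rw [separable_def']
    refine ⟨-1, C t * X, ?_⟩
    have h1 : derivative (X ^ 2 - 1 : R[X]) = 2 * X := by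
      rw [derivative_sub, derivative_one, derivative_X_sq, h2C, sub_zero]
    rw [h1]
    calc -1 * (X ^ 2 - 1) + C t * X * (2 * X) = 1 - X ^ 2 + (2 * C t) * X ^ 2 := by ring
      _ = 1 := by rw [ht']; ring
  have s3 : (1 - C c * X ^ 2 : R[X]).Separable := by
    rw [separable_def']
    refine ⟨1, -(C t * X), ?_⟩
    have h1 : derivative (1 - C c * X ^ 2 : R[X]) = -(2 * C c * X) := by
      rw [derivative_sub, derivative_one, derivative_C_mul, derivative_X_sq, h2C]
      ring
    rw [h1]
    calc 1 * (1 - C c * X ^ 2) + -(C t * X) * (-(2 * C c * X)) =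
        1 - C c * X ^ 2 + (2 * C t) * (C c * X ^ 2) := by ring
      _ = 1 := by rw [ht']; ring
  have c1 : IsCoprime (X : R[X]) (X ^ 2 - 1) := ⟨X, -1, by ring⟩
  have c2 : IsCoprime (X : R[X]) (1 - C c * X ^ 2) := ⟨C c * X, 1, by ring⟩
  have c3 : IsCoprime (X ^ 2 - 1 : R[X]) (1 - C c * X ^ 2) := by
    refine ⟨C d * C c, C d, ?_⟩
    calc C d * C c * (X ^ 2 - 1) + C d * (1 - C c * X ^ 2) = (1 - C c) * C d := by ring
      _ = 1 := hd'
  unfold f0
  exact (s1.mul s2 c1).mul s3 (c2.mul_left c3)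
-- END SA3

-- BEGIN SA4
/-- `t (1 - t²) (t² - c)` is separable. -/
theorem separable_f1 (c : R) (h2 : IsUnit (2 : R)) (hc : IsUnit c) (hc1 : IsUnit (1 - c)) :
    (f1 c).Separable := by
  obtain ⟨u, hu⟩ := h2.exists_left_inv
  obtain ⟨v, hv⟩ := hc.exists_left_inv
  obtain ⟨w, hw⟩ := hc1.exists_left_inv
  have hu' : C u * 2 = (1 : R[X]) := by
    rw [← C_1, ← hu, C_mul]
    rfl
  have hv' : C v * C c = (1 : R[X]) := by rw [← C_mul, hv, C_1]
  have hw' : C w * (1 - C c) = (1 : R[X]) := by rw [← C_1, ← C_sub, ← C_mul, hw]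
  have h1 : (1 - X ^ 2 : R[X]).Separable := by
    refine ⟨1, -(C u * X), ?_⟩
    have : derivative (1 - X ^ 2 : R[X]) = -(2 * X) := by
      simp only [derivative_sub, derivative_one, derivative_X_pow, Nat.cast_ofNat, C_ofNat,
        Nat.add_one_sub_one, pow_one, zero_sub]
    rw [this]
    linear_combination X ^ 2 * hu'
  have h3 : (X ^ 2 - C c : R[X]).Separable := by
    refine ⟨-C v, C v * C u * X, ?_⟩
    have : derivative (X ^ 2 - C c : R[X]) = 2 * X := by
      simp only [derivative_sub, derivative_C, derivative_X_pow, Nat.cast_ofNat, C_ofNat,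
        Nat.add_one_sub_one, pow_one, sub_zero]
    rw [this]
    linear_combination C v * X ^ 2 * hu' + hv'
  have h4 : IsCoprime (X : R[X]) (1 - X ^ 2) := ⟨X, 1, by ring⟩
  have h5 : IsCoprime (X : R[X]) (X ^ 2 - C c) := ⟨C v * X, -C v, by linear_combination hv'⟩
  have h6 : IsCoprime (1 - X ^ 2 : R[X]) (X ^ 2 - C c) := ⟨C w, C w, by linear_combination hw'⟩
  exact (separable_X.mul h1 h4).mul h3 (h5.mul_left h6)
-- END SA4

-- BEGIN SA5
private theorem SA5_monic (f : R[X]) : (X ^ 2 - C f : R[X][X]).Monic :=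
  monic_X_pow_sub_C f two_ne_zero

/-- `R[X] → R[x, y] / (y² - f(x))` is injective (`AdjoinRoot.of.injective...` for a monic
polynomial; `X ^ 2 - C f` is monic) and `DC f` is a finite `R[X]`-module. -/
theorem of_injective_DC (f : R[X]) :
    Function.Injective (AdjoinRoot.of (X ^ 2 - C f : R[X][X])) := by
  rw [injective_iff_map_eq_zero]
  intro r hr
  by_contra hne
  rcases subsingleton_or_nontrivial R with h | h
  · exact hne (Subsingleton.elim _ _)
  have h1 : (X ^ 2 - C f : R[X][X]) ∣ C r := AdjoinRoot.mk_eq_zero.1 hr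
  refine (SA5_monic f).not_dvd_of_natDegree_lt (fun h0 => hne (C_eq_zero.1 h0)) ?_ h1
  rw [natDegree_C, natDegree_X_pow_sub_C]
  exact two_pos

theorem finite_DC (f : R[X]) : Module.Finite R[X] (DC f) := (SA5_monic f).finite_adjoinRoot
-- END SA5

-- BEGIN SA6
/-- Two ring homomorphisms out of `DC f` agree if they agree on `R`, `x`, `y`. -/
theorem DC.hom_ext {S : Type*} [CommRing S] (f : R[X]) (φ ψ : DC f →+* S)
    (hC : ∀ a : R, φ (algebraMap R (DC f) a) = ψ (algebraMap R (DC f) a))
    (hx : φ (DC.x f) = ψ (DC.x f)) (hy : φ (DC.y f) = ψ (DC.y f)) : φ = ψ := by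
  have h1 : φ.comp (AdjoinRoot.of (X ^ 2 - C f : R[X][X])) =
      ψ.comp (AdjoinRoot.of (X ^ 2 - C f : R[X][X])) :=
    Polynomial.ringHom_ext (fun a => hC a) hx
  refine Ideal.Quotient.ringHom_ext (Polynomial.ringHom_ext (fun p => ?_) hy)
  exact RingHom.congr_fun h1 p

/-- Ring homomorphisms out of `DC f`. -/
theorem DC.exists_hom {S : Type*} [CommRing S] (f : R[X]) (ρ : R →+* S) (x y : S)
    (h : y ^ 2 = f.eval₂ ρ x) :
    ∃ φ : DC f →+* S, φ.comp (algebraMap R (DC f)) = ρ ∧ φ (DC.x f) = x ∧ φ (DC.y f) = y := by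
  have h' : (X ^ 2 - C f : R[X][X]).eval₂ (eval₂RingHom ρ x) y = 0 := by
    rw [eval₂_sub, eval₂_pow, eval₂_X, eval₂_C, coe_eval₂RingHom, h, sub_self]
  refine ⟨AdjoinRoot.lift (eval₂RingHom ρ x) y h', ?_, ?_, ?_⟩
  · ext a
    change AdjoinRoot.lift (eval₂RingHom ρ x) y h' (AdjoinRoot.of _ (C a)) = ρ a
    rw [AdjoinRoot.lift_of, coe_eval₂RingHom, eval₂_C]
  · rw [DC.x, AdjoinRoot.lift_of, coe_eval₂RingHom, eval₂_X]
  · exact AdjoinRoot.lift_root _
-- END SA6

end general

section field

variable {K : Type u} [Field K]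

-- BEGIN SA7
/-- `K[x, y] / (y² - f(x))` is a domain if the degree of `f` is odd: `y² - f` has no root in
`K[x]` (degrees), so it is irreducible (monic of degree 2), hence prime; `AdjoinRoot` of a prime
is a domain. -/
theorem isDomain_DC (f : K[X]) (hf : Odd f.natDegree) : IsDomain (DC f) := by
  have hm : (X ^ 2 - C f : K[X][X]).Monic := monic_X_pow_sub_C f two_ne_zero
  have hd : (X ^ 2 - C f : K[X][X]).natDegree = 2 := natDegree_X_pow_sub_C
  have hirr : Irreducible (X ^ 2 - C f : K[X][X]) := by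
    rw [hm.irreducible_iff_roots_eq_zero_of_degree_le_three (by rw [hd]) (by rw [hd]; norm_num)]
    rw [Multiset.eq_zero_iff_forall_notMem]
    intro g hg
    rw [mem_roots hm.ne_zero, IsRoot.def, eval_sub, eval_pow, eval_X, eval_C, sub_eq_zero] at hg
    rw [← hg, natDegree_pow] at hf
    exact (Nat.not_even_iff_odd.2 hf) (even_two_mul _)
  exact AdjoinRoot.isDomain_of_prime hirr.prime
-- END SA7

-- BEGIN SA8
theorem natDegree_f0 (c : K) (hc : c ≠ 0) : (f0 c).natDegree = 5 := by
  have h : f0 c = C (-c) * X ^ 5 + (C (1 + c) * X ^ 3 + C (-1) * X) := by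
    unfold f0
    simp only [C_neg, C_add, C_1]
    ring
  rw [h]
  have hc' : -c ≠ 0 := neg_ne_zero.2 hc
  compute_degree!

theorem natDegree_f1 (c : K) : (f1 c).natDegree = 5 := by
  have h : f1 c = C (-1) * X ^ 5 + (C (1 + c) * X ^ 3 + C (-c) * X) := by
    unfold f1
    simp only [C_neg, C_add, C_1]
    ring
  rw [h]
  compute_degree!
-- END SA8

theorem isDomain_A0 (c : K) (hc : c ≠ 0) : IsDomain (A0 c) :=
  isDomain_DC _ (by rw [natDegree_f0 c hc]; decide)

theorem isDomain_A1 (c : K) : IsDomain (A1 c) :=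
  isDomain_DC _ (by rw [natDegree_f1 c]; decide)

end field

section baseChange

variable {R T : Type u} [CommRing R] [CommRing T]

-- BEGIN SA9
/-- The map `R[x, y] / (y² - f(x)) → T[x, y] / (y² - g(x))` for `g = f.map φ`. -/
def DC.map (φ : R →+* T) (f : R[X]) (g : T[X]) (h : f.map φ = g) : DC f →+* DC g :=
  AdjoinRoot.lift ((AdjoinRoot.of (X ^ 2 - C g : T[X][X])).comp (mapRingHom φ)) (DC.y g) (by
    have h1 := DC.y_sq g
    simp only [eval₂_sub, eval₂_pow, eval₂_X, eval₂_C, RingHom.comp_apply, coe_mapRingHom]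
    rw [h1, h, sub_self])

theorem DC.map_x (φ : R →+* T) (f : R[X]) (g : T[X]) (h : f.map φ = g) :
    DC.map φ f g h (DC.x f) = DC.x g := by
  refine (AdjoinRoot.lift_of _).trans ?_
  rw [RingHom.comp_apply, coe_mapRingHom, map_X]
  rfl

theorem DC.map_y (φ : R →+* T) (f : R[X]) (g : T[X]) (h : f.map φ = g) :
    DC.map φ f g h (DC.y f) = DC.y g :=
  AdjoinRoot.lift_root _

theorem DC.map_algebraMap (φ : R →+* T) (f : R[X]) (g : T[X]) (h : f.map φ = g) :
    (DC.map φ f g h).comp (algebraMap R (DC f)) = (algebraMap T (DC g)).comp φ := by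
  refine RingHom.ext fun a => ?_
  have h1 : DC.map φ f g h (AdjoinRoot.of (X ^ 2 - C f : R[X][X]) (C a)) =
      ((AdjoinRoot.of (X ^ 2 - C g : T[X][X])).comp (mapRingHom φ)) (C a) :=
    AdjoinRoot.lift_of _
  change DC.map φ f g h (AdjoinRoot.of (X ^ 2 - C f : R[X][X]) (C a)) = _
  rw [h1, RingHom.comp_apply, coe_mapRingHom, map_C]
  rfl

theorem map_map_f0 (φ : R →+* T) (c : R) : (f0 c).map φ = f0 (φ c) := by
  simp [f0]

theorem map_map_f1 (φ : R →+* T) (c : R) : (f1 c).map φ = f1 (φ c) := by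
  simp [f1]
-- END SA9

-- BEGIN SA10
/-- `T[x, y] / (y² - f(x))` is the pushout of `R[x, y] / (y² - f(x))` and `T` over `R`
(universal property, from `DC.exists_hom` and `DC.hom_ext`). -/
theorem isPushout_DC (φ : R →+* T) (f : R[X]) (g : T[X]) (h : f.map φ = g) :
    IsPushout (CommRingCat.ofHom (algebraMap R (DC f))) (CommRingCat.ofHom φ)
      (CommRingCat.ofHom (DC.map φ f g h)) (CommRingCat.ofHom (algebraMap T (DC g))) := by
  have key : ∀ s : PushoutCocone (CommRingCat.ofHom (algebraMap R (DC f))) (CommRingCat.ofHom φ),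
      ∃ θ : DC g →+* s.pt, θ.comp (algebraMap T (DC g)) = s.inr.hom ∧
        θ (DC.x g) = s.inl.hom (DC.x f) ∧ θ (DC.y g) = s.inl.hom (DC.y f) := by
    intro s
    have hc : s.inl.hom.comp (algebraMap R (DC f)) = s.inr.hom.comp φ := by
      have := congrArg CommRingCat.Hom.hom s.condition
      simpa using this
    apply DC.exists_hom g s.inr.hom
    rw [← map_pow, DC.y_sq, ← h, eval₂_map, ← hc]
    have h1 : (s.inl.hom.comp (AdjoinRoot.of (X ^ 2 - C f : R[X][X]))) =
        eval₂RingHom (s.inl.hom.comp (algebraMap R (DC f))) (s.inl.hom (DC.x f)) := by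
      refine Polynomial.ringHom_ext (fun a => ?_) ?_
      · rw [coe_eval₂RingHom, eval₂_C]
        rfl
      · rw [coe_eval₂RingHom, eval₂_X]
        rfl
    exact RingHom.congr_fun h1 f
  choose θ h1 h2 h3 using key
  refine ⟨⟨?_⟩, ⟨PushoutCocone.IsColimit.mk _ (fun s => CommRingCat.ofHom (θ s)) ?_ ?_ ?_⟩⟩
  · rw [← CommRingCat.ofHom_comp, ← CommRingCat.ofHom_comp, DC.map_algebraMap]
  · intro s
    apply CommRingCat.hom_ext
    have hc : s.inl.hom.comp (algebraMap R (DC f)) = s.inr.hom.comp φ := by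
      have := congrArg CommRingCat.Hom.hom s.condition
      simpa using this
    refine DC.hom_ext f _ _ (fun a => ?_) ?_ ?_
    · have h4 := RingHom.congr_fun (DC.map_algebraMap φ f g h) a
      have h5 := RingHom.congr_fun (h1 s) (φ a)
      have h6 := RingHom.congr_fun hc a
      simp only [RingHom.comp_apply] at h4 h5 h6
      change θ s (DC.map φ f g h (algebraMap R (DC f) a)) = _
      rw [h4, h5, h6]
    · change θ s (DC.map φ f g h (DC.x f)) = _
      rw [DC.map_x, h2]
    · change θ s (DC.map φ f g h (DC.y f)) = _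
      rw [DC.map_y, h3]
  · intro s
    apply CommRingCat.hom_ext
    exact h1 s
  · intro s m hm1 hm2
    apply CommRingCat.hom_ext
    have e1 : m.hom.comp (DC.map φ f g h) = s.inl.hom := by
      have := congrArg CommRingCat.Hom.hom hm1
      simpa using this
    have e2 : m.hom.comp (algebraMap T (DC g)) = s.inr.hom := by
      have := congrArg CommRingCat.Hom.hom hm2
      simpa using this
    refine DC.hom_ext g _ _ (fun a => ?_) ?_ ?_
    · exact (RingHom.congr_fun e2 a).trans (RingHom.congr_fun (h1 s) a).symm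
    · have := RingHom.congr_fun e1 (DC.x f)
      rw [RingHom.comp_apply, DC.map_x] at this
      exact this.trans (h2 s).symm
    · have := RingHom.congr_fun e1 (DC.y f)
      rw [RingHom.comp_apply, DC.map_y] at this
      exact this.trans (h3 s).symm
-- END SA10

/-- The map between the first charts. -/
def A0.map (φ : R →+* T) (c : R) : A0 c →+* A0 (φ c) := DC.map φ _ _ (map_map_f0 φ c)

/-- The map between the second charts. -/
def A1.map (φ : R →+* T) (c : R) : A1 c →+* A1 (φ c) := DC.map φ _ _ (map_map_f1 φ c)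

-- BEGIN SA11
/-- The map between the intersections of the charts. -/
def Ov.map (φ : R →+* T) (c : R) : Ov c →+* Ov (φ c) :=
  IsLocalization.Away.lift (DC.x (f0 c)) (g := (algebraMap (A0 (φ c)) (Ov (φ c))).comp (A0.map φ c))
    (by
      rw [RingHom.comp_apply, A0.map, DC.map_x]
      exact IsLocalization.Away.algebraMap_isUnit _)

theorem Ov.map_comp_algebraMap (φ : R →+* T) (c : R) :
    (Ov.map φ c).comp (algebraMap (A0 c) (Ov c)) =
      (algebraMap (A0 (φ c)) (Ov (φ c))).comp (A0.map φ c) :=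
  RingHom.ext fun a => IsLocalization.Away.lift_eq _ (by
    rw [RingHom.comp_apply, A0.map, DC.map_x]
    exact IsLocalization.Away.algebraMap_isUnit _) a

theorem SA11_map_algebraMap (φ : R →+* T) (c : R) (a : A0 c) :
    Ov.map φ c (algebraMap (A0 c) (Ov c) a) =
      algebraMap (A0 (φ c)) (Ov (φ c)) (A0.map φ c a) :=
  RingHom.congr_fun (Ov.map_comp_algebraMap φ c) a

theorem SA11_map_xinv (φ : R →+* T) (c : R) : Ov.map φ c (Ov.xinv c) = Ov.xinv (φ c) := by
  have h1 := congrArg (Ov.map φ c) (Ov.x_mul_xinv c)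
  rw [map_mul, map_one, SA11_map_algebraMap, A0.map, DC.map_x] at h1
  have h2 := Ov.x_mul_xinv (φ c)
  have hu : IsUnit (algebraMap (A0 (φ c)) (Ov (φ c)) (DC.x (f0 (φ c)))) :=
    IsLocalization.Away.algebraMap_isUnit _
  exact hu.mul_left_cancel (h1.trans h2.symm)

theorem Ov.map_comp_toOv (φ : R →+* T) (c : R) :
    (Ov.map φ c).comp (toOv c) = (toOv (φ c)).comp (A1.map φ c) := by
  apply DC.hom_ext
  · intro a
    have h1 : toOv c (algebraMap R (A1 c) a) = algebraMap R (Ov c) a :=
      RingHom.congr_fun (toOv_comp c) a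
    have h2 : A1.map φ c (algebraMap R (A1 c) a) = algebraMap T (A1 (φ c)) (φ a) :=
      RingHom.congr_fun (DC.map_algebraMap φ (f1 c) (f1 (φ c)) (map_map_f1 φ c)) a
    have h3 : A0.map φ c (algebraMap R (A0 c) a) = algebraMap T (A0 (φ c)) (φ a) :=
      RingHom.congr_fun (DC.map_algebraMap φ (f0 c) (f0 (φ c)) (map_map_f0 φ c)) a
    have h4 : toOv (φ c) (algebraMap T (A1 (φ c)) (φ a)) = algebraMap T (Ov (φ c)) (φ a) :=
      RingHom.congr_fun (toOv_comp (φ c)) (φ a)
    rw [RingHom.comp_apply, RingHom.comp_apply, h1, h2, h4,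
      IsScalarTower.algebraMap_apply R (A0 c) (Ov c), SA11_map_algebraMap, h3,
      ← IsScalarTower.algebraMap_apply T (A0 (φ c)) (Ov (φ c))]
  · rw [RingHom.comp_apply, RingHom.comp_apply, toOv_x, SA11_map_xinv, A1.map, DC.map_x, toOv_x]
  · rw [RingHom.comp_apply, RingHom.comp_apply, toOv_y, map_mul, map_pow, SA11_map_xinv,
      SA11_map_algebraMap, A0.map, DC.map_y, A1.map, DC.map_y, toOv_y]
-- END SA11

end baseChange

section valuation

variable {R : Type u} [CommRing R] {V K : Type u} [CommRing V] [IsDomain V] [ValuationRing V]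
  [Field K] [Algebra V K] [IsFractionRing V K]

-- BEGIN SA12
/-- A `K`-point of `y² = f(x)` over `V` with `x ∈ V` is a `V`-point: `y² ∈ V` and `V` is
integrally closed. -/
theorem DC.lift_valuation (f : R[X]) (ρ : R →+* V) (φ : DC f →+* K)
    (hρ : φ.comp (algebraMap R (DC f)) = (algebraMap V K).comp ρ)
    (hx : φ (DC.x f) ∈ (algebraMap V K).range) :
    ∃ ψ : DC f →+* V, (algebraMap V K).comp ψ = φ ∧ ψ.comp (algebraMap R (DC f)) = ρ := by
  obtain ⟨v, hv⟩ := hx
  have hinj : Function.Injective (algebraMap V K) := IsFractionRing.injective V K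
  have h1 : φ.comp (AdjoinRoot.of (X ^ 2 - C f : R[X][X])) =
      eval₂RingHom ((algebraMap V K).comp ρ) (φ (DC.x f)) := by
    apply Polynomial.ringHom_ext
    · intro a
      rw [coe_eval₂RingHom, eval₂_C, ← hρ]
      rfl
    · rw [coe_eval₂RingHom, eval₂_X]
      rfl
  have h2 : φ (DC.y f) ^ 2 = algebraMap V K (f.eval₂ ρ v) := by
    rw [← map_pow, DC.y_sq, hom_eval₂, hv]
    exact RingHom.congr_fun h1 f
  obtain ⟨w, hw⟩ := IsIntegrallyClosed.exists_algebraMap_eq_of_isIntegral_pow (R := V)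
    (x := φ (DC.y f)) (n := 2) (by norm_num) (by
      rw [h2]
      exact isIntegral_algebraMap)
  have h3 : w ^ 2 = f.eval₂ ρ v := by
    apply hinj
    rw [map_pow, hw, h2]
  obtain ⟨ψ, hψρ, hψx, hψy⟩ := DC.exists_hom f ρ v w h3
  refine ⟨ψ, ?_, hψρ⟩
  apply DC.hom_ext
  · intro a
    have h4 : ψ (algebraMap R (DC f) a) = ρ a := RingHom.congr_fun hψρ a
    have h5 : φ (algebraMap R (DC f) a) = algebraMap V K (ρ a) := RingHom.congr_fun hρ a
    rw [RingHom.comp_apply, h4, h5]
  · rw [RingHom.comp_apply, hψx, hv]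
  · rw [RingHom.comp_apply, hψy, hw]
-- END SA12

end valuation

end Pool.Agent.Lib.MP_211349_ag
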